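import Pool.Agent.TH803.TW.Bdry
import Pool.Agent.TH803.TW.Jordan
import Pool.Agent.TH803.TW.Ftw

/-!
# Pair correlation of zeta zeros in Bohr sets (under RH)

Let `R` be a continuous even function supported in `[-κ, κ]`, whose cosine transform `r` is
`O(1/(1+x²))`. Assume the Riemann hypothesis. Montgomery's theorem evaluates the sum of
`r((γ - γ') log T / 2π)` over pairs of zeros when `κ < 1`. Here an almost periodic weight `φ(γ)` is
inserted, for instance the indicator function of a Bohr set.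
-/

open Filter Topology Complex MeasureTheory

namespace Pool.Agent.Results.MP_103a5c_nt.BohrSetPairs

/-- the nontrivial zeros of zeta with ordinate in `(T₁, T₂]` -/
def zeros (T₁ T₂ : ℝ) : Set ℂ :=
  {s : ℂ | riemannZeta s = 0 ∧ 0 < s.re ∧ s.re < 1 ∧ T₁ < s.im ∧ s.im ≤ T₂}

/-- the multiplicity of a zero -/
noncomputable def mult (s : ℂ) : ℕ := analyticOrderNatAt riemannZeta s

/-- the number of nontrivial zeros with ordinate in `(T₁, T₂]`, counted with multiplicity -/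
noncomputable def N (T₁ T₂ : ℝ) : ℕ := ∑ᶠ s ∈ zeros T₁ T₂, mult s

/-- the test function `r(x) = ∫ R(α) cos(2π x α) dα`, for `R` supported in `[-1, 1]` -/
noncomputable def r (R : ℝ → ℝ) (x : ℝ) : ℝ :=
  ∫ α in (-1 : ℝ)..1, R α * Real.cos (2 * Real.pi * x * α)

/-- the sum of `r((γ - γ') log T / 2π) w(γ)` over all ordered pairs of zeros with ordinates
`γ, γ'` in `(T₁, T₂]`, counted with multiplicity, `γ = γ'` included -/
noncomputable def pairSum (R w : ℝ → ℝ) (T T₁ T₂ : ℝ) : ℝ :=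
  ∑ᶠ s ∈ zeros T₁ T₂, ∑ᶠ s' ∈ zeros T₁ T₂, (mult s : ℝ) * (mult s' : ℝ) *
    (r R ((s.im - s'.im) * Real.log T / (2 * Real.pi)) * w s.im)

/-- the sum `∑ exp(i α (γ - γ') log T) exp(-(γ - γ')²/4) exp(i τ (γ + γ')/2)` over all ordered
pairs of zeros with ordinates `γ, γ'` in `(T₁, T₂]`, counted with multiplicity -/
noncomputable def twist (τ α T T₁ T₂ : ℝ) : ℂ :=
  ∑ᶠ s ∈ zeros T₁ T₂, ∑ᶠ s' ∈ zeros T₁ T₂, (mult s : ℂ) * (mult s' : ℂ) *
    (cexp (I * α * Real.log T * (s.im - s'.im)) * cexp (-(s.im - s'.im) ^ 2 / 4) *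
      cexp (I * τ * ((s.im + s'.im) / 2)))

/-- `R` is continuous, even, vanishes for `|α| ≥ κ`, and `r(x) = O(1/(1+x²))` -/
structure TestFn (R : ℝ → ℝ) (κ : ℝ) : Prop where
  cont : Continuous R
  even : ∀ α, R (-α) = R α
  supp : ∀ α, κ ≤ |α| → R α = 0
  decay : ∃ K : ℝ, ∀ x : ℝ, |r R x| ≤ K / (1 + x ^ 2)

/-- `φ` is (uniformly) almost periodic: it is a uniform limit of trigonometric polynomials
`Re ∑ c_τ exp (i τ t)`, `τ` in a finite set of real numbers -/
def AlmostPeriodic (φ : ℝ → ℝ) : Prop := ∀ ε : ℝ, 0 < ε → ∃ (S : Finset ℝ) (c : ℝ → ℂ),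
  ∀ t : ℝ, |φ t - (∑ τ ∈ S, c τ * cexp (I * τ * t)).re| ≤ ε

/-- `φ` has mean value `M` -/
def HasMean (φ : ℝ → ℝ) (M : ℝ) : Prop :=
  Tendsto (fun X : ℝ => (∫ t in (0 : ℝ)..X, φ t) / X) atTop (𝓝 M)

/-- the constant of Montgomery's theorem, `R(0) + ∫ |α| R(α) dα` -/
noncomputable def mont (R : ℝ → ℝ) : ℝ := R 0 + 2 * ∫ α in (0 : ℝ)..1, α * R α

/-- the point `α t mod 1` of the torus `(ℝ/ℤ)^k` -/
def pt {k : ℕ} (α : Fin k → ℝ) (t : ℝ) : UnitAddTorus (Fin k) :=
  fun j => ((α j * t : ℝ) : UnitAddCircle)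

/-- the normalised Haar measure of the torus -/
noncomputable def haar (k : ℕ) : Measure (UnitAddTorus (Fin k)) :=
  Measure.pi fun _ => AddCircle.haarAddCircle

lemma line_zeta (RH : RiemannHypothesis) : TH803TW.Line riemannZeta := by
  intro s h1 h2 h3 h4
  refine RH s h4 ?_ ?_
  · rintro ⟨n, rfl⟩
    simp at h1
    have : (0 : ℝ) ≤ n := Nat.cast_nonneg n
    linarith
  · rintro rfl
    norm_num at h3

lemma zeros_eq (T₁ T₂ : ℝ) : zeros T₁ T₂ = H370.zset riemannZeta T₁ T₂ := by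
  ext s
  simp only [zeros, H370.zset, Set.mem_ofPred_eq]
  tauto

lemma N_eq (T₁ T₂ : ℝ) : N T₁ T₂ = H370.NN riemannZeta T₁ T₂ := by
  unfold N H370.NN H370.mult mult
  rw [zeros_eq]

/-- the rescaled function -/
noncomputable def sc (R : ℝ → ℝ) (κ α : ℝ) : ℝ := κ * R (κ * α)

lemma r_sc {R : ℝ → ℝ} {κ : ℝ} (hR : TestFn R κ) (h0 : 0 < κ) (h1 : κ < 1) (y : ℝ) :
    TH803TW.rk (sc R κ) y = r R (y / (2 * Real.pi * κ)) := by
  unfold TH803TW.rk r sc
  have hpi := Real.pi_pos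
  have hc : Continuous fun α : ℝ => R α * Real.cos (y / κ * α) := hR.cont.mul (by fun_prop)
  have e1 : ∫ α in (-1 : ℝ)..1, R α * Real.cos (2 * Real.pi * (y / (2 * Real.pi * κ)) * α) =
      ∫ α in (-1 : ℝ)..1, R α * Real.cos (y / κ * α) := by
    refine intervalIntegral.integral_congr fun α _ => ?_
    show R α * Real.cos (2 * Real.pi * (y / (2 * Real.pi * κ)) * α) = R α * Real.cos (y / κ * α)
    congr 2
    field_simp
  rw [e1]
  have e2 : ∫ α in (-1 : ℝ)..1, κ * R (κ * α) * Real.cos (y * α) =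
      ∫ α in (-κ)..κ, R α * Real.cos (y / κ * α) := by
    have h2 := intervalIntegral.mul_integral_comp_mul_left (a := -1) (b := 1) (c := κ)
      (f := fun α : ℝ => R α * Real.cos (y / κ * α))
    rw [mul_neg, mul_one] at h2
    rw [← h2, ← intervalIntegral.integral_const_mul]
    refine intervalIntegral.integral_congr fun α _ => ?_
    show κ * R (κ * α) * Real.cos (y * α) = κ * (R (κ * α) * Real.cos (y / κ * (κ * α)))
    have : y / κ * (κ * α) = y * α := by field_simp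
    rw [this, mul_assoc]
  rw [e2]
  have hz : ∀ a b : ℝ, (∀ x ∈ Set.uIcc a b, κ ≤ |x|) →
      ∫ α in a..b, R α * Real.cos (y / κ * α) = 0 := by
    intro a b hab
    rw [intervalIntegral.integral_congr (g := fun _ => (0 : ℝ))]
    · simp
    · intro x hx
      show R x * _ = 0
      rw [hR.supp x (hab x hx), zero_mul]
  rw [← intervalIntegral.integral_add_adjacent_intervals (a := -1) (b := -κ) (c := 1)
    (hc.intervalIntegrable _ _) (hc.intervalIntegrable _ _),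
    ← intervalIntegral.integral_add_adjacent_intervals (a := -κ) (b := κ) (c := 1)
    (hc.intervalIntegrable _ _) (hc.intervalIntegrable _ _), hz (-1) (-κ) (fun x hx => by
      rw [Set.uIcc_of_le (by linarith)] at hx
      rw [abs_of_nonpos (by linarith [hx.2])]
      linarith [hx.2]), hz κ 1 (fun x hx => by
      rw [Set.uIcc_of_le h1.le] at hx
      exact hx.1.trans (le_abs_self x))]
  ring

lemma sc_dec {R : ℝ → ℝ} {κ : ℝ} (hR : TestFn R κ) (h0 : 0 < κ) (h1 : κ < 1) :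
    ∃ K : ℝ, ∀ x : ℝ, |TH803TW.rk (sc R κ) x| ≤ K / (1 + x ^ 2) := by
  obtain ⟨K, hK⟩ := hR.decay
  have hpi := Real.pi_gt_three
  have hK0 : 0 ≤ K := by
    have := (abs_nonneg _).trans (hK 0)
    simpa using this
  refine ⟨K * (1 + (2 * Real.pi) ^ 2), fun x => ?_⟩
  rw [r_sc hR h0 h1]
  refine (hK _).trans ?_
  rw [div_le_div_iff₀ (by positivity) (by positivity), mul_assoc]
  apply mul_le_mul_of_nonneg_left _ hK0
  set z := x / (2 * Real.pi * κ) with hz
  have hx : x = z * (2 * Real.pi * κ) := by rw [hz]; field_simp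
  have h2 : x ^ 2 ≤ z ^ 2 * (2 * Real.pi) ^ 2 := by
    rw [hx]
    have h3 : κ ^ 2 ≤ 1 := by nlinarith
    have h4 : (z * (2 * Real.pi * κ)) ^ 2 = z ^ 2 * (2 * Real.pi) ^ 2 * κ ^ 2 := by ring
    rw [h4]
    have h5 : 0 ≤ z ^ 2 * (2 * Real.pi) ^ 2 := by positivity
    nlinarith
  nlinarith [sq_nonneg z, sq_nonneg (2 * Real.pi)]

lemma pairSum_eq {R : ℝ → ℝ} {κ : ℝ} (hR : TestFn R κ) (h0 : 0 < κ) (h1 : κ < 1) (w : ℝ → ℝ)
    (T : ℝ) {T₁ T₂ : ℝ} (hT : 1 ≤ T₁) : pairSum R w T T₁ T₂ =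
      TH803TW.PU (sc R κ) riemannZeta (κ * Real.log T) T₁ T₂ w := by
  unfold pairSum TH803TW.PU
  rw [zeros_eq, H370.finsum_Zf H370.good_zeta hT]
  refine Finset.sum_congr rfl fun s _ => ?_
  rw [H370.finsum_Zf H370.good_zeta hT]
  refine Finset.sum_congr rfl fun s' _ => ?_
  rw [r_sc hR h0 h1]
  have hpi := Real.pi_pos
  have : κ * Real.log T * (s.im - s'.im) / (2 * Real.pi * κ) =
      (s.im - s'.im) * Real.log T / (2 * Real.pi) := by field_simp
  rw [this]
  rfl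

lemma cR_sc {R : ℝ → ℝ} {κ : ℝ} (hR : TestFn R κ) (h0 : 0 < κ) (h1 : κ < 1) :
    H295SI.cR (sc R κ) κ = mont R := by
  unfold H295SI.cR mont sc
  have hc : Continuous fun α : ℝ => α * R α := continuous_id.mul hR.cont
  have h2 := intervalIntegral.mul_integral_comp_mul_left (a := 0) (b := 1) (c := κ)
    (f := fun α : ℝ => α * R α)
  rw [mul_zero, mul_one] at h2
  have h3 : ∫ α in (0 : ℝ)..1, α * (κ * R (κ * α)) =
      ∫ α in (0 : ℝ)..1, (κ * α) * R (κ * α) :=
    intervalIntegral.integral_congr fun α _ => by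
      show α * (κ * R (κ * α)) = κ * α * R (κ * α)
      ring
  have h4 : ∫ α in κ..1, α * R α = 0 := by
    rw [intervalIntegral.integral_congr (g := fun _ => (0 : ℝ))]
    · simp
    · intro x hx
      rw [Set.uIcc_of_le h1.le] at hx
      show x * R x = 0
      rw [hR.supp x (hx.1.trans (le_abs_self x)), mul_zero]
  rw [h3, ← intervalIntegral.integral_add_adjacent_intervals (a := 0) (b := κ) (c := 1)
    (hc.intervalIntegrable _ _) (hc.intervalIntegrable _ _), h4, ← h2, mul_zero]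
  field_simp
  ring

lemma APm_one : TH803TW.APm (fun _ => (1 : ℝ)) 1 := by
  intro ε hε
  refine ⟨{0}, fun _ => 1, Finset.mem_singleton_self _, fun t => ?_, by simp [hε.le]⟩
  unfold TH803TW.tp
  simp [hε.le]

/-- size of `N` in short intervals -/
lemma N_short (RH : RiemannHypothesis) (h : ℝ) (h0 : 0 < h) (h1 : h ≤ 1) :
    ∃ T₀ : ℝ, 10 ≤ T₀ ∧ ∀ T : ℝ, T₀ ≤ T → ∀ H : ℝ, T ^ h ≤ H → H ≤ T / 2 →
      H * Real.log T / 8 ≤ (N T (T + H) : ℝ) := by
  obtain ⟨T₀, hT₀, hT⟩ := TH803TW.shortW H370.good_zeta (line_zeta RH) APm_one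
    (fun _ => zero_le_one) zero_le_one h (1 / 40) h0 h1 (by norm_num)
  refine ⟨T₀, hT₀, fun T hT1 H hH1 hH2 => ?_⟩
  obtain ⟨-, -, h3⟩ := hT T hT1 H hH1 hH2
  rw [N_eq]
  have h4 := (abs_le.1 h3).1
  have hpi := Real.pi_lt_d2
  have hpi0 := Real.pi_pos
  have hH0 : 0 < H := (Real.rpow_pos_of_pos (by linarith) h).trans_le hH1
  have hL0 : 0 < Real.log T := Real.log_pos (by linarith)
  have h5 : H * Real.log T * (3 / 20) ≤ H * Real.log T / (2 * Real.pi) := by
    rw [le_div_iff₀ (by positivity)]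
    have : 0 < H * Real.log T := by positivity
    nlinarith
  linarith

/-- size of `N` in dyadic intervals -/
lemma N_dyadic (η : ℝ) (hη : 0 < η) :
    ∃ T₀ : ℝ, 10 ≤ T₀ ∧ ∀ T : ℝ, T₀ ≤ T →
      |(N T (2 * T) : ℝ) - T * Real.log T / (2 * Real.pi)| ≤ η * (T * Real.log T) := by
  obtain ⟨C, hC, h⟩ := H965SI.countShort riemannZeta H370.good_zeta
  have ev := TH803TW.ev_log_pow 1 1 1 2 one_pos one_pos one_pos
  have ev2 : ∀ᶠ T : ℝ in atTop, 3 * C / η ≤ Real.log T :=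
    Real.tendsto_log_atTop.eventually_ge_atTop _
  obtain ⟨T1, hT1⟩ := (ev.and ev2).exists_forall_of_atTop
  refine ⟨max 10 T1, le_max_left _ _, fun T hT => ?_⟩
  have hT10 : 10 ≤ T := (le_max_left _ _).trans hT
  obtain ⟨e1, e2⟩ := hT1 T ((le_max_right _ _).trans hT)
  rw [Real.rpow_one, one_mul, one_mul] at e1
  have hL0 : 0 < Real.log T := Real.log_pos (by linarith)
  obtain ⟨a1, -⟩ := h T hT10 T (by linarith) le_rfl T (2 * T) le_rfl (by linarith) (by linarith)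
    (by linarith)
  rw [N_eq]
  refine a1.trans ?_
  rw [div_le_iff₀ hη] at e2
  have h3 : Real.log T ^ 2 ≤ T := by nlinarith
  calc C * (T + Real.log T ^ 2) ≤ C * (T + T) := by gcongr
    _ ≤ 3 * C * T := by nlinarith
    _ ≤ Real.log T * η * T := by gcongr
    _ = _ := by ring

theorem short (RH : RiemannHypothesis) {R : ℝ → ℝ} {κ h : ℝ} (hR : TestFn R κ) (h0 : 0 < κ)
    (h1 : κ < h) (hh : h ≤ 1) {φ : ℝ → ℝ} {M : ℝ} (hφ : TH803TW.APm φ M) {ε : ℝ} (hε : 0 < ε) :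
    ∃ T₀ : ℝ, ∀ T : ℝ, T₀ ≤ T → ∀ H : ℝ, T ^ h ≤ H → H ≤ T / 2 →
      |pairSum R φ T T (T + H) - M * pairSum R (fun _ => 1) T T (T + H)| ≤
        ε * (N T (T + H) : ℝ) := by
  have hκ1 : κ < 1 := h1.trans_le hh
  obtain ⟨K, hK⟩ := sc_dec hR h0 hκ1
  have hsc : Continuous (sc R κ) := by
    unfold sc
    exact continuous_const.mul (hR.cont.comp (by fun_prop))
  have hse : ∀ α, sc R κ (-α) = sc R κ α := fun α => by
    unfold sc; rw [mul_neg, hR.even]
  obtain ⟨T1, hT1, hp⟩ := TH803TW.pairW H370.good_zeta (line_zeta RH) hsc hse hK hφ h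
    ((h - κ) / 2) κ (ε / 8) (by linarith) (by linarith) hh h0 hκ1.le (by positivity)
  obtain ⟨T2, hT2, hN⟩ := N_short RH h (h0.trans h1) hh
  obtain ⟨T3, hT3⟩ := (Real.tendsto_log_atTop.eventually_ge_atTop
    (2 * h / (h - κ) + 1)).exists_forall_of_atTop
  refine ⟨max (T1 + 1) (max T2 T3), fun T hT H hH1 hH2 => ?_⟩
  have hTT1 : T1 + 1 ≤ T := (le_max_left _ _).trans hT
  have hTT2 : T2 ≤ T := ((le_max_left _ _).trans (le_max_right _ _)).trans hT
  have hlog := hT3 T (((le_max_right _ _).trans (le_max_right _ _)).trans hT)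
  have hT10 : 10 ≤ T := by linarith
  have hpos : 0 < T := by linarith
  have hL0 : 0 < Real.log T := Real.log_pos (by linarith)
  set L := Real.log T with hL
  have hlog1 : Real.log (T - 1) ≤ L := Real.log_le_log (by linarith) (by linarith)
  have hlog2 : L - 1 ≤ Real.log (T - 1) := by
    have h2 : T / Real.exp 1 ≤ T - 1 := by
      rw [div_le_iff₀ (Real.exp_pos _)]
      have := Real.exp_one_gt_d9
      nlinarith
    have h3 := Real.log_le_log (by positivity) h2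
    rw [Real.log_div (by linarith) (Real.exp_pos 1).ne', Real.log_exp] at h3
    exact h3
  have hH0 : 0 < H := (Real.rpow_pos_of_pos hpos h).trans_le hH1
  have hpow : (T - 1) ^ h ≤ T + H - T := by
    calc (T - 1) ^ h ≤ T ^ h := Real.rpow_le_rpow (by linarith) (by linarith) (by linarith)
      _ ≤ T + H - T := by linarith
  have hΛ1 : κ * Real.log (T - 1) ≤ κ * L := mul_le_mul_of_nonneg_left hlog1 h0.le
  have hΛ2 : κ * L ≤ (h - (h - κ) / 2) * Real.log (T - 1) := by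
    have h2 : (h - (h - κ) / 2) * (L - 1) ≤ (h - (h - κ) / 2) * Real.log (T - 1) :=
      mul_le_mul_of_nonneg_left hlog2 (by linarith)
    have h3 : 2 * h / (h - κ) ≤ L := by linarith
    rw [div_le_iff₀ (by linarith)] at h3
    nlinarith
  obtain ⟨a1, -⟩ := hp (T - 1) (by linarith) T (T + H) (by linarith) (by linarith) hpow
    (κ * L) hΛ1 hΛ2
  rw [pairSum_eq hR h0 hκ1 _ _ (by linarith), pairSum_eq hR h0 hκ1 _ _ (by linarith)]
  refine a1.trans ?_
  have h4 := hN T hTT2 H hH1 hH2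
  have h5 : (T + H - T) * Real.log (T - 1) ≤ H * L := by
    rw [add_sub_cancel_left]
    gcongr
  calc ε / 8 * ((T + H - T) * Real.log (T - 1)) ≤ ε / 8 * (H * L) := by gcongr
    _ = ε * (H * L / 8) := by ring
    _ ≤ _ := by gcongr

theorem dyadic (RH : RiemannHypothesis) {R : ℝ → ℝ} {κ : ℝ} (hR : TestFn R κ) (h0 : 0 < κ)
    (h1 : κ < 1) {φ : ℝ → ℝ} {M : ℝ} (hφ : TH803TW.APm φ M) {ε : ℝ} (hε : 0 < ε) :
    ∃ T₀ : ℝ, ∀ T : ℝ, T₀ ≤ T →
      |pairSum R φ T T (2 * T) - M * mont R * (N T (2 * T) : ℝ)| ≤ ε * (N T (2 * T) : ℝ) := by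
  obtain ⟨K, hK⟩ := sc_dec hR h0 h1
  have hsc : Continuous (sc R κ) := by
    unfold sc
    exact continuous_const.mul (hR.cont.comp (by fun_prop))
  have hse : ∀ α, sc R κ (-α) = sc R κ α := fun α => by
    unfold sc; rw [mul_neg, hR.even]
  have hs1 : sc R κ 1 = 0 := by
    unfold sc
    rw [mul_one, hR.supp κ (le_abs_self κ), mul_zero]
  set m : ℝ := |M * mont R| with hm
  have hm0 : 0 ≤ m := abs_nonneg _
  set η : ℝ := ε / (16 * (m + 1)) with hη
  have hη0 : 0 < η := by positivity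
  obtain ⟨T1, hT1, hp⟩ := TH803TW.pair_dyadic RH (line_zeta RH) hsc hse hs1 hK hφ κ (ε / 16) h0 h1
    (by positivity)
  obtain ⟨T2, hT2, hN⟩ := N_dyadic (min η (1 / 40)) (lt_min hη0 (by norm_num))
  refine ⟨max T1 T2, fun T hT => ?_⟩
  have hTT1 : T1 ≤ T := (le_max_left _ _).trans hT
  have hTT2 : T2 ≤ T := (le_max_right _ _).trans hT
  have hT10 : 10 ≤ T := hT1.trans hTT1
  have hL0 : 0 < Real.log T := Real.log_pos (by linarith)
  have hpi := Real.pi_lt_d2
  have hpi0 := Real.pi_pos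
  have a1 := hp T hTT1
  have a2 := hN T hTT2
  rw [cR_sc hR h0 h1, ← pairSum_eq hR h0 h1 φ T (by linarith)] at a1
  set Y := T * Real.log T with hY
  have hY0 : 0 < Y := by positivity
  have a3 : |(N T (2 * T) : ℝ) - Y / (2 * Real.pi)| ≤ η * Y :=
    a2.trans (by gcongr; exact min_le_left _ _)
  have a4 : |(N T (2 * T) : ℝ) - Y / (2 * Real.pi)| ≤ 1 / 40 * Y :=
    a2.trans (by gcongr; exact min_le_right _ _)
  have a5 : Y / 8 ≤ (N T (2 * T) : ℝ) := by
    have h2 := (abs_le.1 a4).1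
    have h3 : Y * (3 / 20) ≤ Y / (2 * Real.pi) := by
      rw [le_div_iff₀ (by positivity)]
      nlinarith
    linarith
  have a6 : |M * mont R * ((N T (2 * T) : ℝ) - Y / (2 * Real.pi))| ≤ ε / 16 * Y := by
    rw [abs_mul, ← hm]
    calc m * |(N T (2 * T) : ℝ) - Y / (2 * Real.pi)| ≤ m * (η * Y) := by gcongr
      _ = m / (m + 1) * (ε / 16 * Y) := by rw [hη]; field_simp
      _ ≤ 1 * (ε / 16 * Y) := by
          apply mul_le_mul_of_nonneg_right _ (by positivity)
          rw [div_le_one (by positivity)]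
          linarith
      _ = _ := one_mul _
  obtain ⟨x1, x2⟩ := abs_le.1 a1
  obtain ⟨x3, x4⟩ := abs_le.1 a6
  have a7 : ε / 16 * Y + ε / 16 * Y ≤ ε * (N T (2 * T) : ℝ) := by
    have := mul_le_mul_of_nonneg_left a5 hε.le
    linarith
  have e1 : M * mont R * ((N T (2 * T) : ℝ) - Y / (2 * Real.pi)) =
      M * mont R * (N T (2 * T) : ℝ) - Y / (2 * Real.pi) * (M * mont R) := by ring
  rw [e1] at x3 x4
  rw [abs_le]
  constructor
  · linarith only [x1, x4, a7]
  · linarith only [x2, x3, a7]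

lemma mont_nonneg_of (R : ℝ → ℝ) : 0 ≤ |mont R| := abs_nonneg _

open Classical in
theorem sets (RH : RiemannHypothesis) {R : ℝ → ℝ} {κ : ℝ} (hR : TestFn R κ) (h0 : 0 < κ)
    (h1 : κ < 1) (hr : ∀ x, 0 ≤ r R x) {k : ℕ} {α : Fin k → ℝ}
    (hα : ∀ n : Fin k → ℤ, ∑ j, (n j : ℝ) * α j = 0 → n = 0) {U : Set (UnitAddTorus (Fin k))}
    (hU : haar k (frontier U) = 0) {ε : ℝ} (hε : 0 < ε) :
    ∃ T₀ : ℝ, ∀ T : ℝ, T₀ ≤ T →
      |pairSum R (fun t => if pt α t ∈ U then 1 else 0) T T (2 * T) -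
        (haar k U).toReal * mont R * (N T (2 * T) : ℝ)| ≤ ε * (N T (2 * T) : ℝ) := by
  set δ : ℝ := ε / (2 * (|mont R| + 1)) with hδ
  have hδ0 : 0 < δ := by positivity
  have hδm : δ * |mont R| ≤ ε / 2 := by
    rw [hδ]
    have : ε / (2 * (|mont R| + 1)) * |mont R| = |mont R| / (|mont R| + 1) * (ε / 2) := by
      field_simp
    rw [this]
    calc |mont R| / (|mont R| + 1) * (ε / 2) ≤ 1 * (ε / 2) := by
          gcongr
          rw [div_le_one (by positivity)]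
          linarith
      _ = _ := one_mul _
  obtain ⟨f, g, hf0, hfU, hUg, hg1, hfM, hgM⟩ := TH803TW.torus_sand hU hδ0
  obtain ⟨T1, hT1⟩ := dyadic RH hR h0 h1 (TH803TW.APm_torus hα f) (ε := ε / 2) (by positivity)
  obtain ⟨T2, hT2⟩ := dyadic RH hR h0 h1 (TH803TW.APm_torus hα g) (ε := ε / 2) (by positivity)
  refine ⟨max (max T1 T2) 1, fun T hT => ?_⟩
  have hTT1 : T1 ≤ T := ((le_max_left _ _).trans (le_max_left _ _)).trans hT
  have hTT2 : T2 ≤ T := ((le_max_right _ _).trans (le_max_left _ _)).trans hT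
  have hT1' : 1 ≤ T := (le_max_right _ _).trans hT
  have a1 := (abs_le.1 (hT1 T hTT1)).1
  have a2 := (abs_le.1 (hT2 T hTT2)).2
  have hN0 : (0 : ℝ) ≤ N T (2 * T) := Nat.cast_nonneg _
  -- monotonicity in the weight
  have hmono : ∀ w w' : ℝ → ℝ, (∀ t, w t ≤ w' t) →
      pairSum R w T T (2 * T) ≤ pairSum R w' T T (2 * T) := by
    intro w w' hw
    rw [pairSum_eq hR h0 h1 _ _ hT1', pairSum_eq hR h0 h1 _ _ hT1']
    unfold TH803TW.PU
    refine Finset.sum_le_sum fun s _ => Finset.sum_le_sum fun s' _ => ?_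
    have h2 : 0 ≤ TH803TW.rk (sc R κ) (κ * Real.log T * (s.im - s'.im)) := by
      rw [r_sc hR h0 h1]
      exact hr _
    have h3 := hw s.im
    gcongr
  have hind : ∀ t, U.indicator (1 : UnitAddTorus (Fin k) → ℝ) (TH803TW.torusPt α t) =
      if pt α t ∈ U then 1 else 0 := by
    intro t
    have e : TH803TW.torusPt α t = pt α t := rfl
    rw [e]
    by_cases h : pt α t ∈ U
    · rw [Set.indicator_of_mem h, if_pos h]; rfl
    · rw [Set.indicator_of_notMem h, if_neg h]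
  have b1 := hmono (fun t => f (TH803TW.torusPt α t)) (fun t => if pt α t ∈ U then 1 else 0)
    fun t => by rw [← hind]; exact hfU _
  have b2 := hmono (fun t => if pt α t ∈ U then 1 else 0) (fun t => g (TH803TW.torusPt α t))
    fun t => by rw [← hind]; exact hUg _
  -- the constant is nonnegative or the estimate is trivial
  have hm : 0 ≤ mont R := by
    by_contra hneg
    push Not at hneg
    -- apply the asymptotic formula with the constant weight
    obtain ⟨T3, hT3⟩ := dyadic RH hR h0 h1 APm_one (ε := -mont R / 2) (by linarith)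
    obtain ⟨T4, hT4, hN4⟩ := N_dyadic (1 / 40) (by norm_num)
    set X := max (max T3 T4) 10
    have c1 := (abs_le.1 (hT3 X ((le_max_left _ _).trans (le_max_left _ _)))).2
    have c2 := (abs_le.1 (hN4 X ((le_max_right _ _).trans (le_max_left _ _)))).1
    have hX10 : 10 ≤ X := le_max_right _ _
    have hL0 : 0 < Real.log X := Real.log_pos (by linarith)
    have hpi := Real.pi_lt_d2
    have hpi0 := Real.pi_pos
    have hY0 : 0 < X * Real.log X := by positivity
    have h3 : X * Real.log X * (3 / 20) ≤ X * Real.log X / (2 * Real.pi) := by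
      rw [le_div_iff₀ (by positivity)]
      nlinarith
    have c3 : 0 < (N X (2 * X) : ℝ) := by linarith
    have c4 : 0 ≤ pairSum R (fun _ => 1) X X (2 * X) := by
      rw [pairSum_eq hR h0 h1 _ _ (by linarith)]
      unfold TH803TW.PU
      refine Finset.sum_nonneg fun s _ => Finset.sum_nonneg fun s' _ => ?_
      have h2 : 0 ≤ TH803TW.rk (sc R κ) (κ * Real.log X * (s.im - s'.im)) := by
        rw [r_sc hR h0 h1]
        exact hr _
      positivity
    nlinarith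
  rw [abs_of_nonneg hm] at hδm
  have c1 : ((haar k U).toReal - δ) * mont R ≤ (∫ x, f x ∂(TH803TW.haarT k)) * mont R :=
    mul_le_mul_of_nonneg_right hfM hm
  have c2 : (∫ x, g x ∂(TH803TW.haarT k)) * mont R ≤ ((haar k U).toReal + δ) * mont R :=
    mul_le_mul_of_nonneg_right hgM hm
  have d1 := mul_le_mul_of_nonneg_right c1 hN0
  have d2 := mul_le_mul_of_nonneg_right c2 hN0
  have d3 := mul_le_mul_of_nonneg_right hδm hN0
  rw [abs_le]
  constructor
  · linarith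
  · linarith

lemma twist_eq (τ α T : ℝ) {T₁ T₂ : ℝ} (hT : 1 ≤ T₁) : twist τ α T T₁ T₂ =
    TH803TW.FT riemannZeta T₁ T₂ (α * Real.log T) τ := by
  unfold twist TH803TW.FT
  rw [zeros_eq, H370.finsum_Zf H370.good_zeta hT]
  refine Finset.sum_congr rfl fun s _ => ?_
  rw [H370.finsum_Zf H370.good_zeta hT]
  refine Finset.sum_congr rfl fun s' _ => ?_
  have e1 : I * α * Real.log T * ((s.im : ℂ) - s'.im) =
      I * ((α * Real.log T : ℝ) : ℂ) * ((s.im - s'.im : ℝ) : ℂ) := by push_cast; ring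
  have e2 : cexp (-((s.im : ℂ) - s'.im) ^ 2 / 4) =
      ((Real.exp (-(s.im - s'.im) ^ 2 / 4) : ℝ) : ℂ) := by push_cast; rfl
  have e3 : I * (τ : ℂ) * (((s.im : ℂ) + s'.im) / 2) =
      I * τ * (((s.im + s'.im) / 2 : ℝ) : ℂ) := by push_cast; ring
  rw [e1, e2, e3]
  rfl

theorem twisted (RH : RiemannHypothesis) {τ c κ h : ℝ} (hτ : τ ≠ 0) (hc : 0 < c) (h1 : κ < h)
    (hh : h ≤ 1) {ε : ℝ} (hε : 0 < ε) :
    ∃ T₀ : ℝ, ∀ T : ℝ, T₀ ≤ T → ∀ H : ℝ, T ^ h ≤ H → H ≤ T / 2 → ∀ α : ℝ, c ≤ |α| → |α| ≤ κ →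
      ‖twist τ α T T (T + H)‖ ≤ ε * (N T (T + H) : ℝ) := by
  by_cases hcκ : c ≤ κ
  swap
  · exact ⟨0, fun T _ H _ _ α h2 h3 => absurd (h2.trans h3) hcκ⟩
  have h0 : 0 < κ := hc.trans_le hcκ
  obtain ⟨T1, hT1, hp⟩ := TH803TW.FT_bound H370.good_zeta (line_zeta RH) hτ h
    ((h - κ) / 2) c (ε / 8) (by linarith) (by linarith) hh hc (by positivity)
  obtain ⟨T2, hT2, hN⟩ := N_short RH h (h0.trans h1) hh
  obtain ⟨T3, hT3⟩ := (Real.tendsto_log_atTop.eventually_ge_atTop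
    (2 * h / (h - κ) + 1)).exists_forall_of_atTop
  refine ⟨max (T1 + 1) (max T2 T3), fun T hT H hH1 hH2 α ha1 ha2 => ?_⟩
  have hTT1 : T1 + 1 ≤ T := (le_max_left _ _).trans hT
  have hTT2 : T2 ≤ T := ((le_max_left _ _).trans (le_max_right _ _)).trans hT
  have hlog := hT3 T (((le_max_right _ _).trans (le_max_right _ _)).trans hT)
  have hT10 : 10 ≤ T := by linarith
  have hpos : 0 < T := by linarith
  have hL0 : 0 < Real.log T := Real.log_pos (by linarith)
  set L := Real.log T with hL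
  have hlog1 : Real.log (T - 1) ≤ L := Real.log_le_log (by linarith) (by linarith)
  have hlog2 : L - 1 ≤ Real.log (T - 1) := by
    have h2 : T / Real.exp 1 ≤ T - 1 := by
      rw [div_le_iff₀ (Real.exp_pos _)]
      have := Real.exp_one_gt_d9
      nlinarith
    have h3 := Real.log_le_log (by positivity) h2
    rw [Real.log_div (by linarith) (Real.exp_pos 1).ne', Real.log_exp] at h3
    exact h3
  have hH0 : 0 < H := (Real.rpow_pos_of_pos hpos h).trans_le hH1
  have hpow : (T - 1) ^ h ≤ T + H - T := by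
    calc (T - 1) ^ h ≤ T ^ h := Real.rpow_le_rpow (by linarith) (by linarith) (by linarith)
      _ ≤ T + H - T := by linarith
  have habs : |α * L| = |α| * L := by rw [abs_mul, abs_of_pos hL0]
  have hΛ1 : c * Real.log (T - 1) ≤ |α * L| := by
    rw [habs]
    exact (mul_le_mul_of_nonneg_left hlog1 hc.le).trans (mul_le_mul_of_nonneg_right ha1 hL0.le)
  have hΛ2 : |α * L| ≤ (h - (h - κ) / 2) * Real.log (T - 1) := by
    rw [habs]
    refine (mul_le_mul_of_nonneg_right ha2 hL0.le).trans ?_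
    have h2 : (h - (h - κ) / 2) * (L - 1) ≤ (h - (h - κ) / 2) * Real.log (T - 1) :=
      mul_le_mul_of_nonneg_left hlog2 (by linarith)
    have h3 : 2 * h / (h - κ) ≤ L := by linarith
    rw [div_le_iff₀ (by linarith)] at h3
    nlinarith
  have a1 := hp (T - 1) (by linarith) T (T + H) (by linarith) (by linarith) hpow
    (α * L) hΛ1 hΛ2
  rw [twist_eq _ _ _ (by linarith)]
  refine a1.trans ?_
  have h4 := hN T hTT2 H hH1 hH2
  have h5 : (T + H - T) * Real.log (T - 1) ≤ H * L := by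
    rw [add_sub_cancel_left]
    gcongr
  calc ε / 8 * ((T + H - T) * Real.log (T - 1)) ≤ ε / 8 * (H * L) := by gcongr
    _ = ε * (H * L / 8) := by ring
    _ ≤ _ := by gcongr

/-- **pair correlation in Bohr sets, assuming RH** -/
theorem result (RH : RiemannHypothesis) :
    -- the twisted form factor is negligible inside the Montgomery range, in short intervals
    (∀ (τ c κ h : ℝ), τ ≠ 0 → 0 < c → κ < h → h ≤ 1 → ∀ ε : ℝ, 0 < ε →
      ∃ T₀ : ℝ, ∀ T : ℝ, T₀ ≤ T → ∀ H : ℝ, T ^ h ≤ H → H ≤ T / 2 →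
        ∀ α : ℝ, c ≤ |α| → |α| ≤ κ → ‖twist τ α T T (T + H)‖ ≤ ε * (N T (T + H) : ℝ)) ∧
    -- independence of band-limited pair sums and almost periodic weights, in short intervals
    (∀ (h κ : ℝ) (R φ : ℝ → ℝ) (M : ℝ), 0 < κ → κ < h → h ≤ 1 → TestFn R κ → AlmostPeriodic φ →
      HasMean φ M → ∀ ε : ℝ, 0 < ε → ∃ T₀ : ℝ, ∀ T : ℝ, T₀ ≤ T → ∀ H : ℝ, T ^ h ≤ H → H ≤ T / 2 →
        |pairSum R φ T T (T + H) - M * pairSum R (fun _ => 1) T T (T + H)| ≤
          ε * (N T (T + H) : ℝ)) ∧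
    -- the asymptotic formula in dyadic intervals
    (∀ (κ : ℝ) (R φ : ℝ → ℝ) (M : ℝ), 0 < κ → κ < 1 → TestFn R κ → AlmostPeriodic φ →
      HasMean φ M → ∀ ε : ℝ, 0 < ε → ∃ T₀ : ℝ, ∀ T : ℝ, T₀ ≤ T →
        |pairSum R φ T T (2 * T) - M * mont R * (N T (2 * T) : ℝ)| ≤ ε * (N T (2 * T) : ℝ)) ∧
    -- sets of the torus with null boundary, in particular Bohr sets
    (∀ (κ : ℝ) (R : ℝ → ℝ), 0 < κ → κ < 1 → TestFn R κ → (∀ x, 0 ≤ r R x) →
      ∀ (k : ℕ) (α : Fin k → ℝ), (∀ n : Fin k → ℤ, ∑ j, (n j : ℝ) * α j = 0 → n = 0) →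
      ∀ U : Set (UnitAddTorus (Fin k)), haar k (frontier U) = 0 → ∀ ε : ℝ, 0 < ε →
      ∃ T₀ : ℝ, ∀ T : ℝ, T₀ ≤ T →
        |pairSum R (Set.indicator {t | pt α t ∈ U} 1) T T (2 * T) -
          (haar k U).toReal * mont R * (N T (2 * T) : ℝ)| ≤ ε * (N T (2 * T) : ℝ)) := by
  refine ⟨fun τ c κ h hτ hc h1 hh ε hε => ?_,
    fun h κ R φ M h0 h1 hh hR hφ hM ε hε => ?_, fun κ R φ M h0 h1 hR hφ hM ε hε => ?_,
    fun κ R h0 h1 hR hr k α hα U hU ε hε => ?_⟩
  · exact twisted RH hτ hc h1 hh hε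
  · exact short RH hR h0 h1 hh (TH803TW.APm_of_mean hφ hM) hε
  · exact dyadic RH hR h0 h1 (TH803TW.APm_of_mean hφ hM) hε
  · classical
    have h2 : (Set.indicator {t | pt α t ∈ U} (1 : ℝ → ℝ)) =
        fun t => if pt α t ∈ U then 1 else 0 := by
      funext t
      by_cases h : pt α t ∈ U
      · rw [Set.indicator_of_mem (show t ∈ {t | pt α t ∈ U} from h), if_pos h]; rfl
      · rw [Set.indicator_of_notMem (show t ∉ {t | pt α t ∈ U} from h), if_neg h]
    rw [h2]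
    obtain ⟨T₀, hT⟩ := sets RH hR h0 h1 hr hα hU hε
    refine ⟨T₀, fun T hT1 => ?_⟩
    convert hT T hT1

end Pool.Agent.Results.MP_103a5c_nt.BohrSetPairs
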