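import Pool.Agent.TH873.EW.Fin2

/-!
# The order of magnitude of `N(T; α, β)` for all windows of length at least `1.06`, under RH

Montgomery's pair correlation conjecture predicts, for the number of ordered pairs of ordinates
`γ, γ' ∈ (0, T]` with `2πα / log T < γ - γ' < 2πβ / log T`, the asymptotic size
`(T/2π) log T` times `∫_α^β (1 - (sin πu / πu)²) du`.  We prove the lower bound
`c (β - α) (T/2π) log T`, with an absolute constant `c > 0`, for all the windows of length at least
`1.06`, and for the windows with left end point `α > 0` of length at least `0.935 + 1 / (3α)`; far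
away from the origin this is smaller than `1`, the mean spacing.
-/

namespace Pool.Agent.Results.MP_103a5c_nt.EveryWindow

/-- the nontrivial zeros of `ζ` with ordinate in `(0, T]` -/
def zeros (T : ℝ) : Set ℂ :=
  {s : ℂ | 0 < s.re ∧ s.re < 1 ∧ 0 < s.im ∧ s.im ≤ T ∧ riemannZeta s = 0}

/-- the multiplicity of `s` as a zero of `ζ` -/
noncomputable def mult (s : ℂ) : ℕ := analyticOrderNatAt riemannZeta s

/-- the number of ordered pairs `(γ, γ')` of ordinates in `(0, T]`, counted with multiplicity, with
`2πα / log T < γ - γ' < 2πβ / log T` -/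
noncomputable def N (T α β : ℝ) : ℕ :=
  ∑ᶠ s ∈ zeros T, ∑ᶠ s' ∈ zeros T,
    if 2 * Real.pi * α / Real.log T < s.im - s'.im ∧ s.im - s'.im < 2 * Real.pi * β / Real.log T
    then mult s * mult s' else 0

/-- **Lower bound of the predicted order for all windows of length at least `1.06`**, and for those
with left end point `α > 0` and length at least `0.935 + 1 / (3α)`, on the Riemann hypothesis. -/
theorem result (hRH : RiemannHypothesis) :
    ∃ c : ℝ, 0 < c ∧ ∀ α β : ℝ,
      (1.06 ≤ β - α ∨ (0 < α ∧ 0.935 + 1 / (3 * α) ≤ β - α)) →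
      ∃ T₀ : ℝ, ∀ T : ℝ, T₀ ≤ T →
        c * (β - α) * (T / (2 * Real.pi) * Real.log T) ≤ (N T α β : ℝ) := by
  obtain ⟨c, hc, h⟩ := Pool.Agent.TH873.EW.every3 hRH
  refine ⟨c, hc, fun α β hαβ => ?_⟩
  obtain ⟨T0, hT0⟩ := h α β (by
    rw [show (106 / 100 : ℝ) = 1.06 by norm_num, show (935 / 1000 : ℝ) = 0.935 by norm_num]
    exact hαβ)
  exact ⟨T0, fun T hT => hT0 T hT⟩

end Pool.Agent.Results.MP_103a5c_nt.EveryWindow
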