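import Pool.Agent.TH800.LongAvg
import Pool.Agent.W352.TCF.Count
import Pool.Agent.W54.TCF.Fin
import Pool.Agent.H343R2.ZeroSide

/-!
# Long averages of Montgomery's function `F(α, T)`, under the Riemann hypothesis

Montgomery's pair correlation conjecture is essentially the statement `F(α, T) = 1 + o(1)` for
`α ≥ 1`.  We bound the average of `F(·, T)` over long windows, uniformly in the window.
-/

open Complex

namespace Pool.Agent.Results.MP_103a5c_nt.LongAverages

/-- the nontrivial zeros of `ζ` with ordinate in `(0, T]` -/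
def zeros (T : ℝ) : Set ℂ :=
  {s : ℂ | 0 < s.re ∧ s.re < 1 ∧ 0 < s.im ∧ s.im ≤ T ∧ riemannZeta s = 0}

/-- the multiplicity of `s` as a zero of `ζ` -/
noncomputable def mult (s : ℂ) : ℕ := analyticOrderNatAt riemannZeta s

/-- Montgomery's function `F(α, T)`:
`((T/2π) log T)⁻¹ ∑_γ ∑_γ' T ^ (iα(γ - γ')) w(γ - γ')`, `w(u) = 4 / (4 + u²)`, the zeros being counted
with multiplicity -/
noncomputable def F (α T : ℝ) : ℂ :=
  ((T / (2 * Real.pi) * Real.log T : ℝ) : ℂ)⁻¹ *
    ∑ᶠ s ∈ zeros T, ∑ᶠ s' ∈ zeros T, (mult s : ℂ) * (mult s' : ℂ) *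
      ((T : ℂ) ^ (I * α * ((s.im - s'.im : ℝ) : ℂ)) * (4 / (4 + ((s.im - s'.im : ℝ) : ℂ) ^ 2)))

/-- Montgomery's weight -/
noncomputable def W (u : ℝ) : ℝ := 4 / (4 + u ^ 2)

lemma zeros_finite (T : ℝ) : (zeros T).Finite := H370.zeta_zeros_finite T

lemma Z0_eq (T : ℝ) : H343.ZSide.Z0 T = (zeros_finite T).toFinset := rfl

lemma F_eq_PPair (hRH : RiemannHypothesis) (α T : ℝ) (hT : 0 < T) :
    F α T = ((T / (2 * Real.pi) * Real.log T : ℝ) : ℂ)⁻¹ *
      H343.PPair H343.kW (α * Real.log T) (H343.ZSide.Z0 T) H343.ZSide.mz := by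
  classical
  unfold F H343.PPair
  rw [finsum_mem_eq_finite_toFinset_sum _ (zeros_finite T), Z0_eq]
  congr 1
  apply Finset.sum_congr rfl
  intro s hs
  rw [finsum_mem_eq_finite_toFinset_sum _ (zeros_finite T)]
  apply Finset.sum_congr rfl
  intro s' hs'
  have m1 := (zeros_finite T).mem_toFinset.1 hs
  have m2 := (zeros_finite T).mem_toFinset.1 hs'
  have h1 : s.re = 1 / 2 := TC.GlobAux.re_half hRH m1.1 m1.2.1 m1.2.2.2.2
  have h2 : s'.re = 1 / 2 := TC.GlobAux.re_half hRH m2.1 m2.2.1 m2.2.2.2.2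
  have h3 : s + (starRingEnd ℂ) s' - 1 = I * ((s.im - s'.im : ℝ) : ℂ) := by
    apply Complex.ext
    · simp [h1, h2]
      norm_num
    · simp
      ring
  have hT0 : (T : ℂ) ≠ 0 := by exact_mod_cast hT.ne'
  have h4 : (4 : ℂ) - (I * ((s.im - s'.im : ℝ) : ℂ)) ^ 2 = 4 + ((s.im - s'.im : ℝ) : ℂ) ^ 2 := by
    rw [mul_pow, Complex.I_sq]
    ring
  rw [Complex.cpow_def_of_ne_zero hT0, ← Complex.ofReal_log hT.le]
  unfold H343.kW
  rw [h3, h4]
  unfold H343.ZSide.mz H370.mult mult
  push_cast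
  congr 2
  congr 1
  ring

/-- `F(α, T)` is real and nonnegative -/
lemma F_im (hRH : RiemannHypothesis) (α T : ℝ) (hT : 1 < T) : (F α T).im = 0 ∧ 0 ≤ (F α T).re := by
  have hTpos : 0 < T := by linarith
  have hZ : ∀ s ∈ H343.ZSide.Z0 T, 0 < s.re ∧ s.re < 1 := by
    intro s hs
    rw [Z0_eq, Set.Finite.mem_toFinset] at hs
    exact ⟨hs.1, hs.2.1⟩
  have h := H343.pair_W 1 (α * Real.log T) 0 one_pos le_rfl (H343.ZSide.Z0 T)
    H343.ZSide.mz hZ
  have hlog : 0 < Real.log T := Real.log_pos hT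
  have hX : 0 ≤ (T / (2 * Real.pi) * Real.log T)⁻¹ := by
    have := Real.pi_pos
    positivity
  rw [F_eq_PPair hRH α T hTpos, ← Complex.ofReal_inv]
  refine ⟨by rw [Complex.im_ofReal_mul, h.1, mul_zero], ?_⟩
  rw [Complex.re_ofReal_mul]
  refine mul_nonneg hX ?_
  have h2 := h.2
  simp only [neg_zero, intervalIntegral.integral_same, mul_zero] at h2
  exact h2

/-- the finite cosine sum -/
noncomputable def Q (T α : ℝ) : ℝ :=
  Pool.Agent.TH800.QQ (TC.ordT T) (fun g => (TC.mu g : ℝ)) W (Real.log T) α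

lemma inj_im (hRH : RiemannHypothesis) {T : ℝ} :
    Set.InjOn Complex.im (H343.ZSide.Z0 T : Set ℂ) := by
  intro s hs s' hs' h
  have h1 := TC.GlobAux.mem_Z0.mp hs
  have h2 := TC.GlobAux.mem_Z0.mp hs'
  apply Complex.ext
  · rw [TC.GlobAux.re_half hRH h1.1 h1.2.1 h1.2.2.2.2, TC.GlobAux.re_half hRH h2.1 h2.2.1 h2.2.2.2.2]
  · exact h

lemma mu_im (hRH : RiemannHypothesis) {T : ℝ} {s : ℂ} (hs : s ∈ H343.ZSide.Z0 T) :
    TC.mu s.im = mult s := by
  have h1 := TC.GlobAux.mem_Z0.mp hs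
  unfold TC.mu
  rw [TC.GlobAux.eq_half hRH h1.1 h1.2.1 h1.2.2.2.2]
  rfl

lemma re_term (T α x a b : ℝ) (hT : 0 < T) :
    ((a : ℂ) * (b : ℂ) * ((T : ℂ) ^ (I * α * (x : ℂ)) * (4 / (4 + (x : ℂ) ^ 2)))).re =
      a * b * W x * Real.cos (Real.log T * x * α) := by
  have hT0 : (T : ℂ) ≠ 0 := by exact_mod_cast hT.ne'
  rw [Complex.cpow_def_of_ne_zero hT0, ← Complex.ofReal_log hT.le]
  have e1 : (Real.log T : ℂ) * (I * α * (x : ℂ)) = ((Real.log T * x * α : ℝ) : ℂ) * I := by
    push_cast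
    ring
  have e2 : (4 / (4 + (x : ℂ) ^ 2)) = ((W x : ℝ) : ℂ) := by
    unfold W
    push_cast
    ring
  rw [e1, e2, show (a : ℂ) * (b : ℂ) * (cexp (((Real.log T * x * α : ℝ) : ℂ) * I) *
    ((W x : ℝ) : ℂ)) = ((a * b * W x : ℝ) : ℂ) * cexp (((Real.log T * x * α : ℝ) : ℂ) * I) by
      push_cast
      ring, Complex.re_ofReal_mul, Complex.exp_ofReal_mul_I_re]

lemma F_re (hRH : RiemannHypothesis) (α T : ℝ) (hT : 0 < T) :
    (F α T).re = (T / (2 * Real.pi) * Real.log T)⁻¹ * Q T α := by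
  classical
  unfold F Q Pool.Agent.TH800.QQ Pool.Agent.TH800.DS
  rw [← Complex.ofReal_inv, Complex.re_ofReal_mul]
  congr 1
  rw [finsum_mem_eq_finite_toFinset_sum _ (zeros_finite T), Complex.re_sum]
  unfold TC.ordT
  rw [Finset.sum_image (inj_im hRH)]
  apply Finset.sum_congr rfl
  intro s hs
  rw [finsum_mem_eq_finite_toFinset_sum _ (zeros_finite T), Complex.re_sum,
    Finset.sum_image (inj_im hRH)]
  apply Finset.sum_congr rfl
  intro s' hs'
  have h := re_term T α (s.im - s'.im) (mult s) (mult s') hT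
  beta_reduce
  rw [mu_im hRH hs, mu_im hRH hs']
  exact_mod_cast h

lemma PP_bound (hRH : RiemannHypothesis) : ∃ T₀ : ℝ, ∀ T : ℝ, T₀ ≤ T →
    Pool.Agent.TH800.PP (TC.ordT T) (fun g => (TC.mu g : ℝ))
      (2 * Real.pi * (1 / 1000) / Real.log T) ≤
      13059 / 10000 * (T / (2 * Real.pi) * Real.log T) := by
  have hpi := Real.pi_pos
  have hpi1 : Real.pi ^ 2 ≤ 9.8697 := by
    have h1 := Real.pi_lt_d6
    nlinarith
  have hv : TC.vv = 151 / 1250 := by unfold TC.vv; norm_num
  have hE : TC.EE = 1037 / 1000 := rfl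
  set x : ℝ := 2 * Real.pi * (1 / 1000) with hx
  have hx2 : x ^ 2 ≤ 4 / 100000 := by
    rw [hx]
    nlinarith
  have hQ0 : (8833 / 10000 : ℝ) ≤ 53 / 60 - 79 / 2400 * x ^ 2 := by nlinarith
  have hQ : (780275 / 1000000 : ℝ) ≤ TC.Qx x := by
    have hQ1 : (883332 / 1000000 : ℝ) ≤ 53 / 60 - 79 / 2400 * x ^ 2 := by nlinarith
    unfold TC.Qx
    nlinarith
  set D := 2 * TC.Qx x - 1037 / 1000 with hD
  have hD0 : (52355 / 100000 : ℝ) ≤ D := by rw [hD]; linarith
  have hD2 : (274104 / 1000000 : ℝ) ≤ D ^ 2 := by nlinarith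
  have hval : (151 / 1250 : ℝ) / (151 / 1250 + D ^ 2) ≤ 305898 / 1000000 := by
    rw [div_le_iff₀ (by positivity)]
    nlinarith
  obtain ⟨T1, hT1⟩ := TC.close_pairs hRH x (by positivity) (by linarith)
    (by rw [hv, hE]; norm_num; linarith) (1 / 2000000) (by norm_num)
  obtain ⟨T2, hT2, hT2'⟩ := Pool.Agent.W352.TCF.sum_mu_le hRH (1 / 2000000) (by norm_num)
  refine ⟨max T1 T2, fun T hT => ?_⟩
  have hTT1 : T1 ≤ T := (le_max_left _ _).trans hT
  have hTT2 : T2 ≤ T := (le_max_right _ _).trans hT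
  have hT10 : 10 ≤ T := hT2.trans hTT2
  have hlog : 0 < Real.log T := Real.log_pos (by linarith)
  have a1 := hT1 T hTT1 (x / Real.log T) (by positivity) (le_of_eq (div_mul_cancel₀ _ hlog.ne'))
  have a2 := hT2' T hTT2
  rw [hv, hE, ← hD] at a1
  have hX : 0 ≤ T * Real.log T / (2 * Real.pi) := by
    have : 0 ≤ T := by linarith
    positivity
  have a3 : Pool.Agent.TH800.PP (TC.ordT T) (fun g => (TC.mu g : ℝ)) (x / Real.log T) ≤
      ∑ g ∈ TC.ordT T, (TC.mu g : ℝ) + ∑ g ∈ TC.ordT T, (TC.mu g : ℝ) *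
        (((TC.kk (TC.ordT T) TC.mu (x / Real.log T) g - 1 : ℕ)) : ℝ) := by
    unfold Pool.Agent.TH800.PP
    rw [← Finset.sum_add_distrib]
    apply Finset.sum_le_sum
    intro g _
    rw [← mul_one_add (TC.mu g : ℝ), ← Finset.mul_sum]
    refine mul_le_mul_of_nonneg_left ?_ (Nat.cast_nonneg _)
    have e : ∑ g' ∈ (TC.ordT T).filter (fun g' => |g - g'| ≤ x / Real.log T), (TC.mu g' : ℝ) =
        ((TC.kk (TC.ordT T) TC.mu (x / Real.log T) g : ℕ) : ℝ) := by
      unfold TC.kk
      push_cast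
      refine Finset.sum_congr ?_ fun _ _ => rfl
      ext g'
      rw [Finset.mem_filter, Finset.mem_filter, abs_sub_comm]
    rw [e]
    have : TC.kk (TC.ordT T) TC.mu (x / Real.log T) g ≤
        1 + (TC.kk (TC.ordT T) TC.mu (x / Real.log T) g - 1) := by omega
    exact_mod_cast this
  have a4 : T * Real.log T / (2 * Real.pi) * (151 / 1250 / (151 / 1250 + D ^ 2) + 1 / 2000000) ≤
      T * Real.log T / (2 * Real.pi) * (305898 / 1000000 + 1 / 2000000) :=
    mul_le_mul_of_nonneg_left (by linarith) hX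
  have e5 : T / (2 * Real.pi) * Real.log T = T * Real.log T / (2 * Real.pi) := by ring
  rw [e5]
  nlinarith

/-- **Long averages of Montgomery's function, on the Riemann hypothesis.**  There are absolute
constants `ℓ₀`, `K`, `T₀` such that for all `T ≥ T₀` (`F(α, T)` being real) and every window
`[b, b + ℓ]` with `ℓ ≥ ℓ₀`, `0.694 ≤ (1/ℓ) ∫_b^{b+ℓ} F(α, T) dα ≤ 1.306`; if moreover `b ≥ 0` and
`ℓ ≥ K (b + 1)` the average is at least `0.9335`. -/
theorem result (hRH : RiemannHypothesis) :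
    ∃ l₀ K T₀ : ℝ, 0 < K ∧ ∀ T : ℝ, T₀ ≤ T →
      (∀ α : ℝ, (F α T).im = 0) ∧
      ∀ b l : ℝ, l₀ ≤ l →
        694 / 1000 * l ≤ ∫ α in b..(b + l), (F α T).re ∧
        ∫ α in b..(b + l), (F α T).re ≤ 1306 / 1000 * l ∧
        (0 ≤ b → K * (b + 1) ≤ l → 9335 / 10000 * l ≤ ∫ α in b..(b + l), (F α T).re) := by
  obtain ⟨T1, hT1⟩ := PP_bound hRH
  obtain ⟨T2, hT2, hT2'⟩ := Pool.Agent.W54.TCF.NT_asymp' (1 / 1000000) (by norm_num)
  set δ : ℝ := 2 * Real.pi * (1 / 1000) with hδ
  have hpi := Real.pi_gt_three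
  have hδ0 : 6 / 1000 ≤ δ := by rw [hδ]; linarith
  refine ⟨1000000000, 1000000000000000, max T1 T2, by norm_num, fun T hT => ?_⟩
  have hTT1 : T1 ≤ T := (le_max_left _ _).trans hT
  have hTT2 : T2 ≤ T := (le_max_right _ _).trans hT
  have hT10 : 10 ≤ T := hT2.trans hTT2
  have hTpos : 0 < T := by linarith
  have hlog : 0 < Real.log T := Real.log_pos (by linarith)
  set X := T / (2 * Real.pi) * Real.log T with hX
  have hX0 : 0 < X := by rw [hX]; positivity
  set m : ℝ → ℝ := fun g => (TC.mu g : ℝ) with hm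
  set P := Pool.Agent.TH800.PP (TC.ordT T) m (δ / Real.log T) with hP
  have hPX : P ≤ 13059 / 10000 * X := hT1 T hTT1
  set D := ∑ g ∈ TC.ordT T, m g ^ 2 with hD
  have hDX : (1 - 1 / 1000000) * X ≤ D := by
    have h1 := (hT2' T hTT2).1
    rw [← Pool.Agent.W54.TCF.sum_mu hRH] at h1
    refine h1.trans (Finset.sum_le_sum fun g _ => ?_)
    rw [hm]
    simp only
    have : TC.mu g ≤ TC.mu g ^ 2 := Nat.le_self_pow (by norm_num) _
    exact_mod_cast this
  have hQQ : ∀ α, 0 ≤ Pool.Agent.TH800.QQ (TC.ordT T) m W (Real.log T) α := by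
    intro α
    have h1 := (F_im hRH α T (by linarith)).2
    rw [F_re hRH α T hTpos] at h1
    have h2 : 0 < (T / (2 * Real.pi) * Real.log T)⁻¹ := inv_pos.2 hX0
    exact nonneg_of_mul_nonneg_right h1 h2
  have hint : ∀ a b : ℝ, ∫ α in a..b, (F α T).re =
      X⁻¹ * ∫ α in a..b, Pool.Agent.TH800.QQ (TC.ordT T) m W (Real.log T) α := by
    intro a b
    rw [← intervalIntegral.integral_const_mul]
    exact intervalIntegral.integral_congr fun α _ => F_re hRH α T hTpos
  have hW0 : ∀ u, 0 ≤ W u := fun u => by unfold W; positivity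
  have hW1 : ∀ u, W u ≤ 1 := fun u => by
    unfold W
    rw [div_le_one (by positivity)]
    nlinarith [sq_nonneg u]
  have hWz : W 0 = 1 := by unfold W; norm_num
  have hm0 : ∀ g, 0 ≤ m g := fun g => Nat.cast_nonneg _
  have main := fun b l η => Pool.Agent.TH800.long_avg (TC.ordT T) m W (Real.log T) hm0 hW0 hW1 hWz
    hlog hQQ δ (by linarith) b l η
  have hP0 : 0 ≤ P := by
    rw [hP]
    unfold Pool.Agent.TH800.PP
    exact Finset.sum_nonneg fun g _ => Finset.sum_nonneg fun g' _ => mul_nonneg (hm0 g) (hm0 g')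
  have hfar : ∀ η : ℝ, 0 < η → 64 / (η * δ ^ 2) ≤ 2000000 / η := by
    intro η hη
    have hd2 : 36 / 1000000 ≤ δ ^ 2 := by nlinarith
    rw [div_le_div_iff₀ (by positivity) hη]
    nlinarith
  have hXX : X⁻¹ * X = 1 := inv_mul_cancel₀ hX0.ne'
  -- upper bound
  have hup : ∀ b l : ℝ, 10000 ≤ l → ∫ α in b..(b + l), (F α T).re ≤
      (l + 2 * (l / 100000) + 2000000 / (l / 100000)) * (13059 / 10000) := by
    intro b l hl
    have hη : 0 < l / 100000 := by positivity
    have h1 := (main b l (l / 100000) hη (by linarith)).1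
    have h2 : (l + 2 * (l / 100000) + 64 / (l / 100000 * δ ^ 2)) * P ≤
        (l + 2 * (l / 100000) + 2000000 / (l / 100000)) * (13059 / 10000 * X) := by
      refine mul_le_mul ?_ hPX hP0 (by positivity)
      have := hfar _ hη
      linarith
    rw [hint, inv_mul_le_iff₀ hX0]
    refine (h1.trans h2).trans (le_of_eq (by ring))
  refine ⟨fun α => (F_im hRH α T (by linarith)).1, fun b l hl => ⟨?_, ?_, fun hb hlK => ?_⟩⟩
  · have hη : 0 < l / 100000 := by linarith
    have h1 := (main b l (l / 100000) hη (by linarith)).2.1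
    have h3 : 2000000 / (l / 100000) ≤ l / 1000000 := by
      rw [div_le_iff₀ hη]
      nlinarith
    have h4 := hfar _ hη
    have h5 : (l + 64 / (l / 100000 * δ ^ 2)) * P ≤ (l + l / 1000000) * (13059 / 10000 * X) := by
      refine mul_le_mul (by linarith) hPX hP0 (by linarith)
    have h6 : (2 * l - l / 100000) * ((1 - 1 / 1000000) * X) ≤ (2 * l - l / 100000) * D :=
      mul_le_mul_of_nonneg_left hDX (by linarith)
    rw [hint, le_inv_mul_iff₀ hX0]
    have hlX : 0 ≤ l * X := mul_nonneg (by linarith) hX0.le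
    have e1 : (l + l / 1000000) * (13059 / 10000 * X) =
        (1 + 1 / 1000000) * (13059 / 10000) * (l * X) := by ring
    have e2 : (2 * l - l / 100000) * ((1 - 1 / 1000000) * X) =
        (2 - 1 / 100000) * (1 - 1 / 1000000) * (l * X) := by ring
    have e3 : X * (694 / 1000 * l) = 694 / 1000 * (l * X) := by ring
    rw [e1] at h5
    rw [e2] at h6
    rw [e3]
    refine le_trans ?_ h1
    refine le_trans ?_ (sub_le_sub h6 h5)
    linarith
  · have h1 := hup b l (by linarith)
    refine h1.trans ?_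
    have hη : 0 < l / 100000 := by linarith
    have h3 : 2000000 / (l / 100000) ≤ l / 1000000 := by
      rw [div_le_iff₀ hη]
      nlinarith
    linarith
  · -- the window starting near `0`
    have hl0 : 1000000000000000 ≤ l := by nlinarith
    have hη : 0 < (b + l) / 1000000 := by positivity
    have h1 := (main 0 (b + l) ((b + l) / 1000000) hη (by linarith)).2.2
    have h3 : 2000000 / ((b + l) / 1000000) ≤ l / 1000000000 := by
      rw [div_le_iff₀ hη]
      nlinarith
    have h4 := hfar _ hη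
    have h5 : (2173 / 10000 * (b + l) + 64 / ((b + l) / 1000000 * δ ^ 2)) * P ≤
        (2173 / 10000 * (b + l) + l / 1000000000) * (13059 / 10000 * X) := by
      refine mul_le_mul (by linarith) hPX hP0 (by positivity)
    have h6 : ((b + l) - (b + l) / 1000000 + 2173 / 10000 * (b + l)) * ((1 - 1 / 1000000) * X) ≤
        ((b + l) - (b + l) / 1000000 + 2173 / 10000 * (b + l)) * D :=
      mul_le_mul_of_nonneg_left hDX (by linarith)
    -- the integral over `[0, b]`
    have h7 : ∫ α in (0 : ℝ)..b, (F α T).re ≤ l / 1000000 := by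
      have h8 := hup 0 (b + 10000) (by linarith)
      have h9 : ∫ α in (0 : ℝ)..b, (F α T).re ≤ ∫ α in (0 : ℝ)..(0 + (b + 10000)), (F α T).re := by
        have hcont : ∀ a c : ℝ, IntervalIntegrable (fun α => (F α T).re) MeasureTheory.volume a c := by
          intro a c
          have : (fun α => (F α T).re) = fun α => X⁻¹ *
              Pool.Agent.TH800.QQ (TC.ordT T) m W (Real.log T) α := by
            funext α
            exact F_re hRH α T hTpos
          rw [this]
          exact ((Pool.Agent.TH800.QQ_cont _ _ _ _).const_smul X⁻¹).intervalIntegrable _ _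
        have h10 := intervalIntegral.integral_add_adjacent_intervals (hcont 0 b)
          (hcont b (0 + (b + 10000)))
        have h11 : 0 ≤ ∫ α in b..(0 + (b + 10000)), (F α T).re :=
          intervalIntegral.integral_nonneg (by linarith) fun α _ => (F_im hRH α T (by linarith)).2
        linarith
      refine (h9.trans h8).trans ?_
      have h12 : 2000000 / ((b + 10000) / 100000) ≤ 20000000 := by
        rw [div_le_iff₀ (by positivity)]
        nlinarith
      nlinarith
    have h13 : ∫ α in b..(b + l), (F α T).re = (∫ α in (0 : ℝ)..(b + l), (F α T).re) -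
        ∫ α in (0 : ℝ)..b, (F α T).re := by
      have hcont : ∀ a c : ℝ, IntervalIntegrable (fun α => (F α T).re) MeasureTheory.volume a c := by
        intro a c
        have : (fun α => (F α T).re) = fun α => X⁻¹ *
            Pool.Agent.TH800.QQ (TC.ordT T) m W (Real.log T) α := by
          funext α
          exact F_re hRH α T hTpos
        rw [this]
        exact ((Pool.Agent.TH800.QQ_cont _ _ _ _).const_smul X⁻¹).intervalIntegrable _ _
      have h14 := intervalIntegral.integral_add_adjacent_intervals (hcont 0 b) (hcont b (b + l))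
      linarith
    have h15 : (9335 / 10000 + 1 / 1000000) * (b + l) ≤ ∫ α in (0 : ℝ)..(b + l), (F α T).re := by
      rw [hint, le_inv_mul_iff₀ hX0]
      have hlX : 0 ≤ l * X := mul_nonneg (by linarith) hX0.le
      have hbX : 0 ≤ b * X := mul_nonneg hb hX0.le
      have e1 : (2173 / 10000 * (b + l) + l / 1000000000) * (13059 / 10000 * X) =
          (2173 / 10000) * (13059 / 10000) * (b * X) +
          (2173 / 10000 + 1 / 1000000000) * (13059 / 10000) * (l * X) := by ring
      have e2 : ((b + l) - (b + l) / 1000000 + 2173 / 10000 * (b + l)) *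
          ((1 - 1 / 1000000) * X) =
          (1 - 1 / 1000000 + 2173 / 10000) * (1 - 1 / 1000000) * (b * X) +
          (1 - 1 / 1000000 + 2173 / 10000) * (1 - 1 / 1000000) * (l * X) := by ring
      have e3 : X * ((9335 / 10000 + 1 / 1000000) * (b + l)) =
          (9335 / 10000 + 1 / 1000000) * (b * X) + (9335 / 10000 + 1 / 1000000) * (l * X) := by
        ring
      rw [e1] at h5
      rw [e2] at h6
      rw [e3]
      refine le_trans ?_ h1
      refine le_trans ?_ (sub_le_sub h6 h5)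
      linarith
    rw [h13]
    linarith

end Pool.Agent.Results.MP_103a5c_nt.LongAverages
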