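import Pool.Agent.TH850.UV.PB5

/-!
# The pairs of zeros of zeta at a bounded number of mean spacings, unconditionally

The number of pairs of zeros with a difference in a window of length `β - α` mean spacings is
`(β - α + O(1)) (T / 2π) log T`, uniformly for windows within `R` mean spacings of the origin,
`R log R ≪ log T`.  No hypothesis is made on the zeros.
-/

namespace Pool.Agent.Results.MP_103a5c_nt.PairCounts

/-- the nontrivial zeros of zeta, on the critical line or not -/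
def zeros : Set ℂ := {s : ℂ | riemannZeta s = 0 ∧ 0 < s.re ∧ s.re < 1}

/-- the multiplicity of a zero -/
noncomputable def m (s : ℂ) : ℕ := analyticOrderNatAt riemannZeta s

/-- the number of ordered pairs `(γ, γ')` of ordinates in `(0, T]`, counted with multiplicity,
with `2 π α / log T ≤ γ - γ' ≤ 2 π β / log T` -/
noncomputable def N (T α β : ℝ) : ℕ :=
  ∑ᶠ p ∈ {p : ℂ × ℂ | (p.1 ∈ zeros ∧ 0 < p.1.im ∧ p.1.im ≤ T) ∧
      (p.2 ∈ zeros ∧ 0 < p.2.im ∧ p.2.im ≤ T) ∧
      2 * Real.pi * α / Real.log T ≤ p.1.im - p.2.im ∧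
      p.1.im - p.2.im ≤ 2 * Real.pi * β / Real.log T}, m p.1 * m p.2

/-- For every `B ≥ 1` there are `C` and `T₀` such that, for all `T ≥ T₀`, all `R ≥ 1` with
`R log R ≤ B log T` and all `-R ≤ α ≤ β ≤ R`, the number `N(T; α, β)` differs from
`(β - α) (T / 2π) log T` by at most `C T log T`. -/
theorem result :
    ∀ B : ℝ, 1 ≤ B → ∃ C T₀ : ℝ, ∀ T : ℝ, T₀ ≤ T → ∀ R : ℝ, 1 ≤ R →
      R * Real.log R ≤ B * Real.log T → ∀ α β : ℝ, -R ≤ α → α ≤ β → β ≤ R →
      |(N T α β : ℝ) - (β - α) * (T / (2 * Real.pi) * Real.log T)| ≤ C * (T * Real.log T) := by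
  intro B hB
  obtain ⟨C, T0, _, _, h⟩ := Pool.Agent.TH850.UV.pairs_window B hB
  refine ⟨C, T0, fun T hT R hR hRL α β hα hαβ hβ => ?_⟩
  have h1 := h T hT R hR hRL α β hα hαβ hβ
  rw [← Pool.Agent.TH850.UV.pairN_eq] at h1
  have e : T / (2 * Real.pi) * Real.log T = T * Real.log T / (2 * Real.pi) := by ring
  rw [e]
  exact h1

end Pool.Agent.Results.MP_103a5c_nt.PairCounts
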